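import Pool.Agent.L7h31.KN.Stm

/-!
# Project KN (MP_df26cd_co), part CORE
-/

set_option autoImplicit false

namespace Pool.Agent.L7h73.KN

open Pool.Agent.L7h31.KN

section

variable {ι : Type} [Fintype ι] [DecidableEq ι]

theorem flip_flip (j : ι) (y : ι → Bool) : flip j (flip j y) = y := by
  funext i
  unfold L7h31.KN.flip
  by_cases h : i = j
  · subst h
    simp
  · simp [h]

theorem mem_cyl (A : Finset ι) (s y : ι → Bool) : y ∈ cyl A s ↔ ∀ i ∈ A, y i = s i := by
  unfold cyl
  rw [Finset.mem_filter]
  exact ⟨fun h => h.2, fun h => ⟨Finset.mem_univ _, h⟩⟩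

theorem f2 : ∀ a b : ZMod 2, a + b ≠ 0 → (a = 1 ∧ b = 0) ∨ (a = 0 ∧ b = 1) := by decide

end

/-- [CORE] -/
theorem s_CORE (hADD : S_ADD) (hCYD : S_CYD) (hCNT : S_CNT) (hMW : S_MW) : S_CORE := by
  classical
  intro ι _ _ α _ _ k A s hk hA hdist hU hcross
  by_contra hcon
  push Not at hcon
  have hcα : 2 ^ k ≤ Fintype.card α + 1 := by omega
  let Un : Finset (ι → Bool) := Finset.univ.biUnion fun P => cyl (A P) (s P)
  let U : Finset (ι → Bool) := Unᶜ
  have hmemU : ∀ y, y ∈ U ↔ ∀ P, y ∉ cyl (A P) (s P) := by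
    intro y
    rw [Finset.mem_compl, Finset.mem_biUnion]
    push Not
    exact ⟨fun h P => h P (Finset.mem_univ _), fun h P _ => h P⟩
  have hpair : ∀ P Q y, y ∈ cyl (A P) (s P) → y ∈ cyl (A Q) (s Q) → P = Q := by
    intro P Q y hP hQ
    by_contra hne
    obtain ⟨i, hi, hi', hs⟩ := hdist P Q hne
    rw [mem_cyl] at hP hQ
    exact hs ((hP i hi).symm.trans (hQ i hi'))
  have hUn : Un.card = ∑ P, (cyl (A P) (s P)).card := by
    refine Finset.card_biUnion ?_
    intro P _ Q _ hne
    change Disjoint (cyl (A P) (s P)) (cyl (A Q) (s Q))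
    rw [Finset.disjoint_left]
    intro y hP hQ
    exact hne (hpair P Q y hP hQ)
  have hUn2 : Fintype.card α * 2 ^ Fintype.card ι ≤ Un.card * 2 ^ k := by
    rw [hUn, Finset.sum_mul]
    calc Fintype.card α * 2 ^ Fintype.card ι = ∑ _P : α, 2 ^ Fintype.card ι := by
          rw [Finset.sum_const, Finset.card_univ, smul_eq_mul]
      _ ≤ _ := Finset.sum_le_sum fun P _ => hCNT ι k (A P) (s P) (hA P)
  have htot : U.card + Un.card = 2 ^ Fintype.card ι := by
    have h1 : U.card + Un.card = Fintype.card (ι → Bool) := by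
      rw [add_comm]
      exact Finset.card_add_card_compl Un
    rw [h1, Fintype.card_fun, Fintype.card_bool]
  have hUk : U.card * 2 ^ k ≤ 2 ^ Fintype.card ι := by
    have h1 : U.card * 2 ^ k + Un.card * 2 ^ k = 2 ^ Fintype.card ι * 2 ^ k := by
      rw [← add_mul, htot]
    have h2 : 2 ^ Fintype.card ι * 2 ^ k ≤ 2 ^ Fintype.card ι * (Fintype.card α + 1) :=
      Nat.mul_le_mul_left _ hcα
    nlinarith
  -- the indicator function
  have hf : ind U = ind (cyl ∅ (fun _ => true)) + ∑ P, ind (cyl (A P) (s P)) := by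
    funext y
    rw [Pi.add_apply, Finset.sum_apply]
    have h1 : ind (cyl ∅ (fun _ => true)) y = 1 := by
      unfold ind
      rw [if_pos]
      rw [mem_cyl]
      simp
    rw [h1]
    by_cases hy : y ∈ U
    · have h2 : ind U y = 1 := if_pos hy
      rw [h2, Finset.sum_eq_zero, add_zero]
      intro P _
      exact if_neg ((hmemU y).1 hy P)
    · have h2 : ind U y = 0 := if_neg hy
      have h3 : ∃ P, y ∈ cyl (A P) (s P) := by
        by_contra h
        push Not at h
        exact hy ((hmemU y).2 h)
      obtain ⟨P, hP⟩ := h3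
      rw [h2, Finset.sum_eq_single P]
      · have h4 : ind (cyl (A P) (s P)) y = 1 := if_pos hP
        rw [h4]
        decide
      · intro Q _ hQ
        refine if_neg ?_
        intro hQy
        exact hQ (hpair Q P y hQy hP)
      · intro h
        exact absurd (Finset.mem_univ _) h
  have hdeg : Deg k (ind U) := by
    rw [hf]
    refine (hADD ι k _ _).1 (hCYD ι k ∅ _ (by simp)) ?_
    refine Finset.sum_induction _ (fun f => Deg k f) ?_ ?_ ?_
    · intro f g h1 h2
      exact (hADD ι k f g).1 h1 h2
    · exact (hADD ι k 0 0).2.1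
    · intro P _
      exact hCYD ι k (A P) (s P) (hA P)
  have hD : ∀ j, D j (ind U) = 0 := by
    intro j
    by_contra hne
    obtain ⟨k', rfl⟩ : ∃ k', k = k' + 1 := ⟨k - 1, by omega⟩
    have h1 := hMW ι k' (D j (ind U)) (hdeg j) hne
    obtain ⟨y0, hy0, hy0'⟩ := hcross j
    have hy0U : y0 ∈ U := (hmemU y0).2 hy0
    have hy0U' : flip j y0 ∈ U := (hmemU _).2 hy0'
    have h2 : (Finset.univ.filter fun y => D j (ind U) y ≠ 0) ⊆
        (U.erase y0) ∪ (U.erase y0).image (flip j) := by
      intro y hy
      rw [Finset.mem_filter] at hy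
      rw [Finset.mem_union, Finset.mem_erase, Finset.mem_image]
      rcases f2 _ _ hy.2 with ⟨ha, hb⟩ | ⟨ha, hb⟩
      · left
        have hyU : y ∈ U := by
          by_contra h
          have : ind U y = 0 := if_neg h
          rw [this] at ha
          exact absurd ha (by decide)
        refine ⟨?_, hyU⟩
        rintro rfl
        have : ind U (flip j y) = 1 := if_pos hy0U'
        rw [this] at hb
        exact absurd hb (by decide)
      · right
        have hyU : flip j y ∈ U := by
          by_contra h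
          have : ind U (flip j y) = 0 := if_neg h
          rw [this] at hb
          exact absurd hb (by decide)
        refine ⟨flip j y, ?_, flip_flip j y⟩
        rw [Finset.mem_erase]
        refine ⟨?_, hyU⟩
        intro h
        have h3 : y ∈ U := by
          rw [← flip_flip j y, h]
          exact hy0U'
        have : ind U y = 1 := if_pos h3
        rw [this] at ha
        exact absurd ha (by decide)
    have h3 := Finset.card_le_card h2
    have h4 := Finset.card_union_le (U.erase y0) ((U.erase y0).image (flip j))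
    have h5 : ((U.erase y0).image (flip j)).card ≤ (U.erase y0).card := Finset.card_image_le
    have h6 := Finset.card_erase_of_mem hy0U
    have h7 : 0 < U.card := Finset.card_pos.2 ⟨y0, hy0U⟩
    have h8 : (Finset.univ.filter fun y => D j (ind U) y ≠ 0).card ≤ 2 * (U.card - 1) := by omega
    have h9 : 2 ^ Fintype.card ι ≤ 2 * (U.card - 1) * 2 ^ k' :=
      h1.trans (Nat.mul_le_mul_right _ h8)
    have h10 : 2 * (U.card - 1) * 2 ^ k' < U.card * 2 ^ (k' + 1) := by
      obtain ⟨u, hu⟩ : ∃ u, U.card = u + 1 := ⟨U.card - 1, by omega⟩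
      rw [hu, Nat.add_sub_cancel, pow_succ]
      have : 0 < 2 ^ k' := by positivity
      nlinarith
    omega
  have hne : ind U ≠ 0 := by
    obtain ⟨y, hy⟩ := hU
    intro h
    have h1 : ind U y = 1 := if_pos ((hmemU y).2 hy)
    rw [h, Pi.zero_apply] at h1
    exact absurd h1 (by decide)
  have h1 := hMW ι 0 (ind U) hD hne
  have h2 : (Finset.univ.filter fun y => ind U y ≠ 0) ⊆ U := by
    intro y hy
    rw [Finset.mem_filter] at hy
    by_contra h
    exact hy.2 (if_neg h)
  have h3 := Finset.card_le_card h2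
  have h4 : 0 < Un.card := by
    obtain ⟨P⟩ := (inferInstance : Nonempty α)
    refine Finset.card_pos.2 ⟨s P, ?_⟩
    rw [Finset.mem_biUnion]
    refine ⟨P, Finset.mem_univ _, ?_⟩
    rw [mem_cyl]
    exact fun _ _ => rfl
  rw [pow_zero, mul_one] at h1
  omega

end Pool.Agent.L7h73.KN
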